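import Pool.Agent.Helper24.AB.Defs

/-! # Project AB, module PP: the profile `s` (PROF) and the potential `p` (POT); PAPER.md, Sections 1, 2.

Every `def S_XXX : Prop` is a packet. -/

open MeasureTheory Set Filter Topology
open scoped ContDiff

noncomputable section

namespace Pool.Agent.Helper24.AB

/-! ## PROF -/

/-- (VP) A smooth convex approximation of `|x|`.
Proof. Let `η ≥ 0` be a smooth even bump function with support in `[-δ,δ]` and `∫η = 1`; `ϖ(x) = ∫|x-y|η(y)dy`, or: `ϖ'' = 2η`,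
`ϖ'(x) = 2∫_0^xη`, `ϖ(x) = δ + ∫_δ^xϖ'`.  `ϖ' = ±1` outside `[-δ,δ]`; `ϖ(x) - |x|` is decreasing for `x ≥ 0`, `0` for `x ≥ δ`; the same
for `ϖ - xϖ'` (derivative `-xϖ''`); `ϖ(x) ≤ ϖ(δ) = δ` for `|x| ≤ δ`. -/
def S_VP : Prop := ∀ δ : ℝ, 0 < δ → ∃ v : ℝ → ℝ, ContDiff ℝ ∞ v ∧ (∀ x, v (-x) = v x) ∧
  (∀ x, δ ≤ |x| → v x = |x|) ∧ (∀ x, |deriv v x| ≤ 1) ∧ (∀ x, 0 ≤ deriv (deriv v) x) ∧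
  (∀ x, |x| ≤ v x) ∧ (∀ x, v x ≤ |x| + δ) ∧ (∀ x, x * deriv v x ≤ v x) ∧
  (∀ x, δ ≤ x → deriv v x = 1) ∧ (∀ x, x ≤ -δ → deriv v x = -1)

/-- (PROF) The profile. Uses (VP) and (NUM) (`κ² < 0.0236`; of the Goals file NT) -- state NUM's fact you need as
hypothesis `S_NUM` by importing `Pool.Agent.Helper24.AB.NT.Goals`, or prove `κ²<0.0236` yourself.
Proof. `S₀(x) = 2A cos(κx) - A`, `s₂(x) = 2A√(a²-x²)/a`, `δ = A/40`, `s = (S₀+s₂)/2 - ½ϖ(S₀-s₂)` on `(-a,a)`, (any even values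
outside, e.g. the same formula, `√` of a negative number being `0`).
`min(S₀,s₂) - δ/2 ≤ s ≤ min(S₀,s₂)`.  For `|x| ≤ a`: `0.994A ≤ S₀ ≤ A` (`κ²a² ≤ 0.0059`).
mid: `|x| ≤ a/2`: `s₂ ≥ √3A ≥ S₀+δ`, so `s = S₀`.  edge: `|x| ≥ 19a/20`: `s₂ ≤ 2A√0.0975 ≤ 0.6245A ≤ S₀ - δ`, so `s = s₂`.
ge_mid: `s₂ ≥ 0.62A`, `s ≥ 0.62A - A/80 ≥ A/2`.  pos: clear.
Derivatives: with `y = S₀-s₂`, `φ₁ = (1-ϖ'(y))/2`, `φ₂ = (1+ϖ'(y))/2` (both in `[0,1]`, sum 1): `s' = φ₁S₀'+φ₂s₂'`,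
`s'' = φ₁S₀''+φ₂s₂''-½ϖ''(y)(S₀'-s₂')² ≤ φ₁S₀''+φ₂s₂''`.
`S₀'' = -κ²(S₀+A)`;  `s₂'' = -2Aa/(a²-x²)^{3/2} ≤ -8A ≤ -κ²(s₂+A)`; so `s'' ≤ -κ²(φ₁S₀+φ₂s₂+A)` and
`φ₁S₀+φ₂s₂ = s+½(ϖ(y)-yϖ'(y)) ≥ s`: this is k1.
s'sign: `S₀' = -2Aκ sin κx`, `s₂' = -s₂x/(a²-x²)` have the sign of `-x`.
s': `e = a²-x²`; `|S₀'| ≤ 2Aκ²|x|`, to prove `φ₁·2Aκ²e + φ₂s₂ ≤ 1.05s`.  If `y ≤ -δ`: `φ₂=0`, `s=S₀ ≥ 0.99A`, `2Aκ²e ≤ 0.0118A`.  If `y ≥ δ`: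
`φ₁=0`, `s=s₂`.  If `|y|<δ`: `s₂ ≥ S₀-δ ≥ 0.969A`, LHS `≤ max(0.0118A, s₂) = s₂`, `s ≥ s₂-δ-δ/2 = s₂-0.0375A ≥ s₂/1.05`. -/
def S_PROFx : Prop := S_PROF

/-! ## POT: functions -/

/-- (LOGR) smoothing of `log‖ζ‖`.
Proof. `ϑ` smooth nondecreasing with `ϑ = 0` for `s ≤ 1/4` and `ϑ = 1` for `s ≥ 1`; `h(τ) = ∫_1^τϑ(s)/s ds` (smooth, `= log τ` for `τ ≥ 1`,
constant for `τ ≤ 1/4`); `ℓ(ζ) = log r + ½h(‖ζ‖²/r²)`.  For `G(τ)`, `τ = ‖ζ‖²/r²`: `Δ(G(‖ζ‖²/r²)) = (4/r²)(G'(τ)+τG''(τ))`, so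
`Δℓ = (2/r²)ϑ'(‖ζ‖²/r²) ≥ 0`, zero for `‖ζ‖ ≥ r`.  Polar coordinates (`Complex.integral_comp_polarCoord_symm`):
`∫_{ball 0 R}Δℓ = 2π∫_0^R(2s/r²)ϑ'(s²/r²)ds = 2π(ϑ(R²/r²)-ϑ(0)) = 2π`. -/
def S_LOGR : Prop := ∀ r : ℝ, 0 < r → ∃ l : ℂ → ℝ, ContDiff ℝ ∞ l ∧
  (∀ ζ, r ≤ ‖ζ‖ → l ζ = Real.log ‖ζ‖) ∧ (∀ ζ, 0 ≤ lapC l ζ) ∧ (∀ ζ, r ≤ ‖ζ‖ → lapC l ζ = 0) ∧
  ∀ R, r ≤ R → ∫ ζ in Metric.ball (0 : ℂ) R, lapC l ζ = 2 * Real.pi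

/-- (LR) The building block `L_r`. Uses (LOGR).
Proof. `L = ℓ_r + log‖T‖`, `T(ζ) = tan ζ/ζ`, `T(0) = 1`: holomorphic and without zeros in `|Re ζ| < π/2` (`3/2 < π/2`), so
`log‖T‖` is smooth and harmonic there. (`T = (sin ζ/ζ)/cos ζ`; `sin ζ/ζ = dslope sin 0 ζ`.)  For `‖ζ‖ ≥ r`: `L = log‖tan ζ‖`.
For `Im ζ > 1/2` let `q = e^{2iζ}`, `|q| = e^{-2Im ζ} < e^{-1}`, `tan ζ = i(1-q)/(1+q)`,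
`G(ζ) = Log(1-q) - Log(1+q)`, `|G| ≤ 2·|q|/(1-|q|) ≤ 4|q|`; for `Im ζ < -1/2`: `G(ζ) = G(-ζ)` (`|tan(-ζ)| = |tan ζ|`). -/
def S_LR : Prop := ∀ r : ℝ, 0 < r → r ≤ 1 / 4 → ∃ (L : ℂ → ℝ) (G : ℂ → ℂ),
  ContDiffOn ℝ ∞ L {ζ | |ζ.re| < 3 / 2} ∧ (∀ ζ, |ζ.re| < 3 / 2 → 0 ≤ lapC L ζ) ∧
  (∀ ζ, |ζ.re| < 3 / 2 → r ≤ ‖ζ‖ → lapC L ζ = 0) ∧
  (∀ R, r ≤ R → R ≤ 1 / 4 → ∫ ζ in Metric.ball (0 : ℂ) R, lapC L ζ = 2 * Real.pi) ∧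
  DifferentiableOn ℂ G {ζ | |ζ.re| < 3 / 2 ∧ 1 / 2 < |ζ.im|} ∧
  ∀ ζ : ℂ, |ζ.re| < 3 / 2 → 1 / 2 < |ζ.im| → L ζ = (G ζ).re ∧ ‖G ζ‖ ≤ 8 * Real.exp (-(2 * |ζ.im|))

/-- (PHOLE) The quasi-periodic potential of one hole `x` (and its translates `x + 2πik`, with mass `2πλ^k`).
Uses (LR) and `1 < lam < 3`.
Proof. `P₀(w) = ∑_{k∈ℤ}λ^kL(w-x-2πik)` on `|Re w| < 1` (there `|Re(w-x)| < 3/2`): the series converges because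
`|L(ζ)| ≤ 8e^{-2|Im ζ|}` for `|Im ζ| > 1/2` and `λ < e^{4π}`; `P₀(w+2πi) = λP₀(w)` by reindexing.  Near a point `w₀` the terms with
`|Im(w₀-x-2πik)| ≥ 2` (all but finitely many) are the real parts of the holomorphic functions `λ^kG(w-x-2πik)`, whose sum converges
locally uniformly: the sum is holomorphic (`differentiableOn_tsum_of_summable_norm`), so smooth, and its real part is harmonic.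
Hence `P₀` is smooth on `|Re w| < 1` and `ΔP₀(w) = ∑_kλ^k(ΔL)(w-x-2πik)` (locally a finite sum).
`P(w) = χ(Re w)P₀(w)` with `χ` smooth, `χ = 1` on `|σ| ≤ 3/4`, `χ = 0` for `|σ| ≥ 9/10`.  On `ball x R`, `R ≤ 1/4`, only `k=0` contributes. -/
def S_PHOLE : Prop := ∀ r : ℝ, 0 < r → r ≤ 1 / 4 → ∀ x : ℂ, |x.re| ≤ 1 / 2 → ∃ P : ℂ → ℝ,
  ContDiff ℝ ∞ P ∧ (∀ w, P (w + 2 * Real.pi * Complex.I) = lam * P w) ∧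
  (∀ w : ℂ, 1 ≤ |w.re| → P w = 0) ∧ (∀ w : ℂ, |w.re| < 3 / 4 → 0 ≤ lapC P w) ∧
  (∀ w : ℂ, |w.re| < 3 / 4 → (∀ k : ℤ, r ≤ ‖w - x - 2 * Real.pi * Complex.I * k‖) →
    lapC P w = 0) ∧
  ∀ R, r ≤ R → R ≤ 1 / 4 → ∫ w in Metric.ball x R, lapC P w = 2 * Real.pi

/-- (SERIES) Sums with very small coefficients.
Proof. `Q̂_j(w) = e^{-κ Im w}Q_j(w)` is smooth, `2πi`-periodic (`e^{2πκ} = λ`) and `0` for `|σ| ≥ 1`: all its iterated derivatives are bounded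
(compactness of `{|σ| ≤ 1, 0 ≤ t ≤ 2π}`), `‖D^kQ̂_j‖ ≤ C_{j,k}`.  `M_j = δ2^{-j-1}/(20(1+max_{k ≤ j+2}C_{j,k}))`: for `ε_j<M_j` the series
`∑ε_jQ̂_j` and the series of the derivatives converge (`contDiff_tsum_of_eventually`/`contDiff_tsum`), and `p = e^{κt}∑ε_jQ̂_j`.  The
bounds for `p`, `fderiv p` and `lapC p` (`κ < 1`; `lapC(e^{κt}f) = e^{κt}(lapC f+2κf_t+κ²f)`) follow. -/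
def S_SERIES : Prop := ∀ (δ : ℝ) (Q : ℕ → ℂ → ℝ), 0 < δ → (∀ j, ContDiff ℝ ∞ (Q j)) →
  (∀ j w, Q j (w + 2 * Real.pi * Complex.I) = lam * Q j w) →
  (∀ j (w : ℂ), 1 ≤ |w.re| → Q j w = 0) →
  ∃ M : ℕ → ℝ, (∀ j, 0 < M j) ∧ ∀ ε : ℕ → ℝ, (∀ j, 0 < ε j ∧ ε j < M j) →
    ContDiff ℝ ∞ (fun w => ∑' j, ε j * Q j w) ∧
    (∀ w, Summable (fun j => ε j * Q j w)) ∧ (∀ w, Summable (fun j => ε j * lapC (Q j) w)) ∧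
    (∀ w, lapC (fun w => ∑' j, ε j * Q j w) w = ∑' j, ε j * lapC (Q j) w) ∧
    ∀ w : ℂ, |∑' j, ε j * Q j w| ≤ δ * Real.exp (kap * w.im) ∧
      ‖fderiv ℝ (fun w => ∑' j, ε j * Q j w) w‖ ≤ δ * Real.exp (kap * w.im) ∧
      |lapC (fun w => ∑' j, ε j * Q j w) w| ≤ δ * Real.exp (kap * w.im)

/-! ## POT: the geometry of the blocks -/

/-- `ρ_j = min(ρ₀, a/20)·2^{-2j-3}` -/
def rhoj (a ρ₀ : ℝ) (j : ℕ) : ℝ := min ρ₀ (a / 20) * (1 / 2) ^ (2 * j + 3)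
/-- number of squares in the direction of `σ` -/
def Nsj (a ρ₀ : ℝ) (j : ℕ) : ℕ := ⌈19 / 10 * a / rhoj a ρ₀ j⌉₊
/-- number of squares in the direction of `t` -/
def Ntj (a ρ₀ : ℝ) (j : ℕ) : ℕ := ⌊(1 / 2 : ℝ) ^ (j + 1) / rhoj a ρ₀ j⌋₊

/-- The blocks: `τ_j = 2^{-j}`, `b_j = N_tρ_j ≤ 2^{-j-1}`, `a_{2,j} = N_sρ_j/2`. -/
def BD (a ρ₀ : ℝ) (eps : ℕ → ℝ) : BlockData where
  tau j := (1 / 2) ^ j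
  b j := Ntj a ρ₀ j * rhoj a ρ₀ j
  rho j := rhoj a ρ₀ j
  a2 j := Nsj a ρ₀ j * rhoj a ρ₀ j / 2
  eps := eps
  Ns j := Nsj a ρ₀ j
  Nt j := Ntj a ρ₀ j

/-- (BD) the numerical properties of the blocks.
Proof. `19a/10 ≤ N_sρ_j ≤ 19a/10+ρ_j ≤ 19a/10+a/160`.  `2^{-j-1}/ρ_j ≥ 40·2^{j+2}`, so `N_t ≥ 2^j`;
`N_tρ_j ≤ 2^{-j-1}`. -/
def S_BD : Prop := ∀ (a ρ₀ : ℝ) (eps : ℕ → ℝ), 0 < a → a ≤ 1 / 2 → 0 < ρ₀ →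
  ∀ j, 0 < (BD a ρ₀ eps).tau j ∧ 0 < (BD a ρ₀ eps).b j ∧ (BD a ρ₀ eps).b j ≤ (1 / 2) ^ (j + 1) ∧
    (BD a ρ₀ eps).tau j + (BD a ρ₀ eps).b j < 2 * Real.pi ∧
    0 < (BD a ρ₀ eps).rho j ∧ (BD a ρ₀ eps).rho j ≤ ρ₀ ∧ (BD a ρ₀ eps).rho j ≤ 1 / 4 ∧
    (2 : ℝ) ^ j ≤ (BD a ρ₀ eps).b j / (BD a ρ₀ eps).rho j ∧
    19 / 20 * a ≤ (BD a ρ₀ eps).a2 j ∧ (BD a ρ₀ eps).a2 j ≤ 39 / 40 * a ∧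
    ((BD a ρ₀ eps).Ns j : ℝ) * (BD a ρ₀ eps).rho j = 2 * (BD a ρ₀ eps).a2 j ∧
    ((BD a ρ₀ eps).Nt j : ℝ) * (BD a ρ₀ eps).rho j = (BD a ρ₀ eps).b j

/-- (SEP) the holes are well separated: a point of the tile with centre `x_{j,i,i'}` has distance `≥ ρ_{j'}/2` from all the
other centres and their translates. Uses (BD).
Proof. Same block, `k=0`: `w` is in the (closed) tile of the centre `(i,i')`, not in the interior of the tile of `(l,l')`, so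
`|Re(w-x')| ≥ ρ_j/2` or `|Im(w-x')| ≥ ρ_j/2`.  Otherwise: `Im w ∈ [τ_j,τ_j+b_j]` and the interior of the interval
`2πk+[τ_{j'},τ_{j'}+b_{j'}]` does not contain `Im w` (`τ_{j+1}+b_{j+1} < τ_j`; all blocks are in `(0,2)`, `2 < 2π`), and the imaginary part of
`x'+2πik` has distance `≥ ρ_{j'}/2` from the end points of this interval. -/
def S_SEP : Prop := ∀ (a ρ₀ : ℝ) (eps : ℕ → ℝ), 0 < a → a ≤ 1 / 2 → 0 < ρ₀ →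
  ∀ j i i', i < (BD a ρ₀ eps).Ns j → i' < (BD a ρ₀ eps).Nt j → ∀ w : ℂ,
    |(w - (BD a ρ₀ eps).ctr j i i').re| ≤ (BD a ρ₀ eps).rho j / 2 →
    |(w - (BD a ρ₀ eps).ctr j i i').im| ≤ (BD a ρ₀ eps).rho j / 2 →
    ∀ j' l l' (k : ℤ), l < (BD a ρ₀ eps).Ns j' → l' < (BD a ρ₀ eps).Nt j' →
      ¬ (j' = j ∧ l = i ∧ l' = i' ∧ k = 0) →
      (BD a ρ₀ eps).rho j' / 2 ≤
        ‖w - (BD a ρ₀ eps).ctr j' l l' - 2 * Real.pi * Complex.I * k‖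

/-! ## POT: capacity -/

/-- (LOGC) Logarithmic cut-off of small energy.
Proof. `ϑ` smooth nondecreasing `ℝ → [0,1]`, `ϑ=0` for `x ≤ 1/4`, `ϑ = 1` for `x ≥ 3/4`, `|ϑ'| ≤ 4`.  For `0<r<R`:
`ψ(ζ) = ϑ(log(R/‖ζ‖)/log(R/r))` (`= 1` near `0`): `= 1` for `‖ζ‖ ≤ r`, `0` for `‖ζ‖ ≥ R`, `‖∇ψ‖ ≤ 4/(‖ζ‖ log(R/r))`, supported in
`r ≤ ‖ζ‖ ≤ R`: energy `≤ 16·2π·log(R/r)/log(R/r)² = 32π/log(R/r)` (polar coordinates); `r` tiny. (`‖fderiv‖` is the operator norm `≤` gradient.) -/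
def S_LOGC : Prop := ∀ R e : ℝ, 0 < R → 0 < e → ∃ (r : ℝ) (ψ : ℂ → ℝ), 0 < r ∧ r < R ∧
  ContDiff ℝ ∞ ψ ∧ (∀ ζ, 0 ≤ ψ ζ ∧ ψ ζ ≤ 1) ∧ (∀ ζ, ‖ζ‖ ≤ r → ψ ζ = 1) ∧
  (∀ ζ, R ≤ ‖ζ‖ → ψ ζ = 0) ∧ Integrable (fun ζ => ‖fderiv ℝ ψ ζ‖ ^ 2) ∧
  ∫ ζ, ‖fderiv ℝ ψ ζ‖ ^ 2 ≤ e

/-- (LOGP) Periodized version. Uses (LOGC).
Proof. `ψ_x(w) = ∑_{k∈ℤ}ψ(w-x-2πik)`; the supports are disjoint (`R ≤ 1`), the sum is locally finite.  The energy in a cell is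
`∑_k∫_{cell}‖∇ψ(w-x-2πik)‖² = ∑_k∫_{cell-x-2πik}‖∇ψ‖² ≤ ∫_ℂ‖∇ψ‖²` (disjoint translates of the cell). -/
def S_LOGP : Prop := ∀ R e : ℝ, 0 < R → R ≤ 1 → 0 < e → ∃ r : ℝ, 0 < r ∧ r < R ∧
  ∀ x : ℂ, ∃ ψ : ℂ → ℝ, ContDiff ℝ ∞ ψ ∧ (∀ w, ψ (w + 2 * Real.pi * Complex.I) = ψ w) ∧
    (∀ w, 0 ≤ ψ w ∧ ψ w ≤ 1) ∧
    (∀ (w : ℂ) (k : ℤ), ‖w - x - 2 * Real.pi * Complex.I * k‖ ≤ r → ψ w = 1) ∧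
    (∀ w : ℂ, (∀ k : ℤ, R ≤ ‖w - x - 2 * Real.pi * Complex.I * k‖) → ψ w = 0) ∧
    ∀ a : ℝ, IntegrableOn (fun w => ‖fderiv ℝ ψ w‖ ^ 2) (cell a) ∧
      ∫ w in cell a, ‖fderiv ℝ ψ w‖ ^ 2 ≤ e

/-- (CAP) The capacity property (p4). Uses (BD), (LOGP).
Proof. `R_j = min(ρ_j/8, a2^{-j-5}/N_s(j))`, `e_j>0` with `N_s(j)N_t(j)√e_j ≤ 2^{-j-1}`, `r_j < R_j` from (LOGP) (we may decrease `r_j`: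
`r_j < ρ_j/4` is automatic).  Let `ψ_{j,i,i'}` be the functions of (LOGP) for the centre `x_{j,i,i'}`.  `v₀(σ)` smooth, `= 1` for `|σ| ≤ a/4`, `= 0` for
`|σ| ≥ 3a/8 =: a1`, `0 ≤ v₀ ≤ 1`;  `v_n(w) = v₀(Re w)·∏_{j≤n}∏_{i,i'}(1-ψ_{j,i,i'}(w))`.
Energy: `‖∇v_n‖ ≤ |v₀'|+∑‖∇ψ_{j,i,i'}‖` (all factors are in `[0,1]`), so the `L²(cell)` norm is
`≤ C₀+∑_jN_sN_t√e_j ≤ C₀+1`, `C := (C₀+1)²`.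
`G = {σ ∈ (-a/4,a/4) : R_j < |σ - Re x_{j,i,0}| ∀j,i}` (`Re x_{j,i,i'}` does not depend on `i'`), volume
`≥ a/2-∑_jN_s·2R_j ≥ a/2-a/8`; `v_n = 1` on `{Re w ∈ G}`.
`O = {w | (∀ j ≤ n, i, i', k: r_j < ‖w-x_{j,i,i'}-2πik‖) and Im w ∉ 2πk+[0,2^{-n}] ∀k}` is open (the first family is locally
finite, the second closed).  For `w ∈ O` in the strip the hypothesis gives `Δp(w)=0`: for `j>n` the disc of radius `r_j` around `x_{j,i,i'}+2πik` lies in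
`Im ∈ 2πk+[2^{-j},2^{-j}+2^{-j-1}] ⊂ 2πk+[0,2^{-n}]`.  `{w ∈ cell | v_n ≠ 0, w ∉ O} ⊂ {|σ|<a, 0 ≤ t ≤ 2^{-n}}`, volume
`≤ 2a2^{-n} ≤ 1/(n+1)` (`v_n = 0` on the closed discs with `j ≤ n`). -/
def S_CAP : Prop := ∀ a ρ₀ : ℝ, 0 < a → a ≤ 1 / 2 → 0 < ρ₀ → ∃ r : ℕ → ℝ,
  (∀ j, 0 < r j ∧ r j < rhoj a ρ₀ j / 4) ∧ ∀ p : ℂ → ℝ,
    (∀ w ∈ strip (3 * a / 2), (∀ j i i' (k : ℤ), i < Nsj a ρ₀ j → i' < Ntj a ρ₀ j →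
      r j < ‖w - (BD a ρ₀ 0).ctr j i i' - 2 * Real.pi * Complex.I * k‖) → lapC p w = 0) →
    IsCapacity a p

/-- (POTF) Assembly of `S_POT`. Uses (BD), (SEP), (PHOLE), (CAP), (SERIES) and `S_NRX` (Goals file NT).
Proof. `r_j` from (CAP), `P_{j,i,i'}` from (PHOLE) with `x = x_{j,i,i'}` (`|Re x| ≤ a₂ < 1/2`), radius `r_j < ρ_j/4 ≤ 1/4`; `Q_j = ∑_{i<N_s,i'<N_t}P_{j,i,i'}`;
`M_j` from (SERIES) with `δ = δ₀`; `ε_j ∈ (0,M_j)` with NR from (NRX); `p = ∑ε_jQ_j`, `B = BD a ρ₀ ε` (its centres do not depend on `ε`).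
p2, off, p4: `Δp = ∑ε_j∑ΔP_{j,i,i'}`, every term is `≥ 0` on `|Re w| < 3/4` and vanishes if `r_j ≤ ‖w-x_{j,i,i'}-2πik‖` for all `k`; with (SEP) on the
tile of `(j,i,i')` only the term `P_{j,i,i'}` can be `≠ 0`, and it is `0` for `‖w-x‖ ≥ ρ_j/4 > r_j`.
flux: on `ball x (ρ_j/4)` `Δp = ε_jΔP_{j,i,i'}`; integral `2πε_j`. -/
def S_POTF : Prop := S_POT

end Pool.Agent.Helper24.AB
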